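import Mathlib
import Pool.Agent.U199.SRC.Main

/-!
# Separably rationally connected Fano hypersurfaces over prime fields

For every prime `p`, every `n ≥ 2` and every `1 ≤ d ≤ n` there is a smooth hypersurface of degree
`d` in `ℙ^n`, defined over `𝔽_p`, on which the rational normal curve of degree `d` (which is
defined over `𝔽_p` too) is a very free rational curve.
-/

set_option autoImplicit false

namespace Pool.Agent.Results.MP_fe9afc_ag.PrimeFieldSRC

open MvPolynomial U199.SRC

section

variable {p : ℕ} [Fact p.Prime] {K : Type*} [Field K] [Algebra (ZMod p) K]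

lemma chart0_ratNormal (n d : ℕ) (i : Fin (n + 1)) :
    chart0 (ratNormal K n d i) = cv K n d i := by
  rw [ratNormal, cv, chart0]
  split_ifs with h
  · simp
  · simp

lemma chart0_aeval (n d : ℕ) (P : MvPolynomial (Fin (n + 1)) (ZMod p)) :
    chart0 (aeval (ratNormal K n d) (map (algebraMap (ZMod p) K) P)) = aeval (cv K n d) P := by
  rw [aeval_map_algebraMap, chart0]
  have : (aeval ![(1 : Polynomial K), Polynomial.X] : MvPolynomial (Fin 2) K →ₐ[K] Polynomial K)
      (aeval (ratNormal K n d) P)
      = aeval (fun i => (aeval ![(1 : Polynomial K), Polynomial.X] :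
        MvPolynomial (Fin 2) K →ₐ[K] Polynomial K) (ratNormal K n d i)) P :=
    comp_aeval_apply (ratNormal K n d)
      ((aeval ![(1 : Polynomial K), Polynomial.X] :
        MvPolynomial (Fin 2) K →ₐ[K] Polynomial K).restrictScalars (ZMod p)) P
  rw [this]
  congr 1
  congr 1
  funext i
  exact chart0_ratNormal n d i

lemma hom_ratNormal {n d : ℕ} (i : Fin (n + 1)) : (ratNormal K n d i).IsHomogeneous d := by
  rw [ratNormal]
  split_ifs with h
  · have := (isHomogeneous_X_pow (R := K) (0 : Fin 2) (d - (i : ℕ))).mul
      (isHomogeneous_X_pow (R := K) (1 : Fin 2) (i : ℕ))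
    rwa [show d - (i : ℕ) + (i : ℕ) = d by omega] at this
  · exact isHomogeneous_zero _ _ _

theorem smooth_of_good {n d : ℕ} {F : MvPolynomial (Fin (n + 1)) (ZMod p)}
    (hF : Good K p n d F) : IsSmooth (map (algebraMap (ZMod p) K) F) := by
  intro x hx h0
  by_contra hcon
  push Not at hcon
  apply hx
  apply hF.smooth
  · intro i
    have := hcon i
    rw [pderiv_map, eval_map, ← aeval_def] at this
    exact this
  · rw [eval_map, ← aeval_def] at h0
    exact h0

theorem veryFree_of_good {n d : ℕ} (hd : 1 ≤ d) (hdn : d ≤ n)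
    {F : MvPolynomial (Fin (n + 1)) (ZMod p)} (hF : Good K p n d F) :
    IsVeryFree (map (algebraMap (ZMod p) K) F) d (ratNormal K n d) where
  homogeneous := hom_ratNormal
  base_point_free := by
    intro a ha
    by_cases h0 : a 0 = 0
    · have h1 : a 1 ≠ 0 := by
        intro h1
        apply ha
        funext i
        fin_cases i
        · exact h0
        · exact h1
      refine ⟨⟨d, by omega⟩, ?_⟩
      rw [ratNormal, if_pos le_rfl]
      simp [h1]
    · refine ⟨0, ?_⟩
      rw [ratNormal, if_pos (by simp)]
      simp [h0]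
  on_hypersurface := by
    rw [aeval_map_algebraMap]
    exact hF.onX
  ample := by
    intro G H h hG _ hGH
    refine ample_of_span hd _ (hF.hom.map _) (ratNormal K n d) hom_ratNormal ?_ ?_ ?_ G H h hG hGH
    · rw [chart0_ratNormal, cv, if_pos (by simp)]
      simp
    · intro i hi
      rw [chart0_ratNormal, cv]
      split_ifs
      · apply dvd_pow_self
        intro h
        exact hi (Fin.ext h)
      · exact dvd_zero _
    · intro ℓ h1 h2 E hE
      apply hF.span ℓ
      · intro i x hx
        have := h1 i x hx
        rwa [pderiv_map, chart0_aeval] at this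
      · intro Q hQ
        apply h2 Q
        rw [pderiv_map, chart0_aeval, hQ]
      · obtain ⟨r, rfl⟩ : ∃ r, d = r + 1 := ⟨d - 1, by omega⟩
        rw [show (r + 1) * (r + 1) = (r + 1) * (r + 1 - 1) + (r + 1) by
          rw [Nat.add_sub_cancel]; ring] at *
        exact hE

end

/-- **A positive answer to Q1.** For every prime `p`, every `n ≥ 2` and every `1 ≤ d ≤ n` there is
a form `F` of degree `d` in `n + 1` variables with coefficients in `𝔽_p` such that the hypersurface
`X : F = 0` of `ℙ^n` over the algebraic closure of `𝔽_p` is smooth, and the rational normal curve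
`f = (s^d : s^(d-1) t : ... : t^d : 0 : ... : 0)` lies on `X` and is very free: `f^* T_X` is ample.
So `X` is a separably rationally connected Fano hypersurface of degree `d` defined over `𝔽_p`. -/
theorem result (p : ℕ) [Fact p.Prime] (n d : ℕ) (hn : 2 ≤ n) (hd : 1 ≤ d) (hdn : d ≤ n) :
    ∃ F : MvPolynomial (Fin (n + 1)) (ZMod p), F.IsHomogeneous d ∧
      IsSmooth (map (algebraMap (ZMod p) (AlgebraicClosure (ZMod p))) F) ∧
      IsVeryFree (map (algebraMap (ZMod p) (AlgebraicClosure (ZMod p))) F) d
        (ratNormal (AlgebraicClosure (ZMod p)) n d) := by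
  obtain ⟨F, hF⟩ := good_all (p := p) (K := AlgebraicClosure (ZMod p)) hn hd hdn
  exact ⟨F, hF.hom, smooth_of_good hF, veryFree_of_good hd hdn hF⟩

end Pool.Agent.Results.MP_fe9afc_ag.PrimeFieldSRC
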